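import Pool.Agent.Helper65.GS.Defs

set_option autoImplicit false

open Cardinal Ordinal Set Filter

universe u

namespace Pool.Agent.Helper65.GS

variable {X : Type u} {W : Filter X} {A B : Set X} {t l : Ordinal.{u}}
  {f : Ordinal.{u} → X → Ordinal.{u}}

theorem Pos.mono (h : Pos W A) (hs : A ⊆ B) : Pos W B :=
  fun hB => h (mem_of_superset hB (compl_subset_compl.2 hs))

theorem not_pos : ¬ Pos W A ↔ ∀ᶠ x in W, x ∉ A := by
  unfold Pos
  rw [not_not]
  rfl

theorem Pos.ae {p : X → Prop} (h : Pos W A) (hp : ∀ᶠ x in W, x ∈ A → p x) :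
    Pos W {x ∈ A | p x} := by
  intro hc
  apply h
  filter_upwards [hc, hp] with x hx hx2 hxA
  exact hx ⟨hxA, hx2 hxA⟩

theorem Pos.nonempty (h : Pos W A) : A.Nonempty := by
  rw [nonempty_iff_ne_empty]
  rintro rfl
  exact h (by simp)

theorem Rep.mono (h : Rep W A t l f) (hB : B ⊆ A) : Rep W B t l f where
  bd a ha := (h.bd a ha).mono fun _ hx hxB => hx (hB hxB)
  inc a b hab hb := (h.inc a b hab hb).mono fun _ hx hxB => hx (hB hxB)
  onto C hC hp g hg := h.onto C (hC.trans hB) hp g hg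

theorem Rep.lt_of_lt (h : Rep W A t l f) (hB : B ⊆ A) (hp : Pos W B) {a b : Ordinal.{u}}
    (ha : a < l) (hlt : ∀ x ∈ B, f a x < f b x) : a < b := by
  rcases lt_trichotomy a b with hab | hab | hab
  · exact hab
  · obtain ⟨x, hx⟩ := hp.nonempty
    exact absurd (hlt x hx) (by rw [hab]; exact lt_irrefl _)
  · obtain ⟨x, hx⟩ := (hp.ae ((h.inc b a hab ha).mono fun x hx hxB => hx (hB hxB))).nonempty
    exact absurd (hlt x hx.1) (not_lt.2 hx.2.le)

theorem Rep.le_of_le (h : Rep W A t l f) (hB : B ⊆ A) (hp : Pos W B) {a b : Ordinal.{u}}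
    (ha : a < l) (hle : ∀ x ∈ B, f a x ≤ f b x) : a ≤ b := by
  by_contra hab
  rw [not_le] at hab
  obtain ⟨x, hx⟩ := (hp.ae ((h.inc b a hab ha).mono fun x hx hxB => hx (hB hxB))).nonempty
  exact absurd (hle x hx.1) (not_le.2 hx.2)

theorem Rep.eq_of_eq (h : Rep W A t l f) (hB : B ⊆ A) (hp : Pos W B) {a b : Ordinal.{u}}
    (ha : a < l) (hb : b < l) (he : ∀ x ∈ B, f a x = f b x) : a = b :=
  le_antisymm (h.le_of_le hB hp ha fun x hx => (he x hx).le)
    (h.le_of_le hB hp hb fun x hx => (he x hx).ge)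

/-- A function below the constant `r` on a positive set lies below a value of `r`. -/
theorem Rep.up (h : Rep W A t l f) (hB : B ⊆ A) (hp : Pos W B) {a r : Ordinal.{u}}
    (ha : a < l) (hr : r < t) (hlt : ∀ x ∈ B, f a x < r) :
    ∃ c < l, a < c ∧ Pos W {x ∈ B | f c x = r} := by
  obtain ⟨c, hc, hc2⟩ := h.onto B hB hp (fun _ => r) (fun _ _ => hr)
  have h2 : Pos W {x ∈ B | f c x = r} := hc2.mono fun x hx => ⟨hx.1, hx.2.symm⟩
  refine ⟨c, hc, ?_, h2⟩
  refine h.lt_of_lt (B := {x ∈ B | f c x = r}) (fun x hx => hB hx.1) h2 ha ?_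
  intro x hx
  rw [hx.2]
  exact hlt x hx.1

/-- A positive subset of `A` is split by the values of a constant. -/
theorem Rep.val (h : Rep W A t l f) (hB : B ⊆ A) (hp : Pos W B) {r : Ordinal.{u}} (hr : r < t) :
    ∃ c < l, Pos W {x ∈ B | f c x = r} := by
  obtain ⟨c, hc, hc2⟩ := h.onto B hB hp (fun _ => r) (fun _ _ => hr)
  exact ⟨c, hc, hc2.mono fun x hx => ⟨hx.1, hx.2.symm⟩⟩

/-- Almost everywhere different functions: at most countably many of them agree with a given
function on a positive set. -/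
theorem countable_of_ae_ne (hs : Saturated W) (S : Set Ordinal.{u})
    (F : Ordinal.{u} → X → Ordinal.{u})
    (hF : ∀ a ∈ S, ∀ b ∈ S, a ≠ b → ∀ᶠ x in W, x ∈ B → F a x ≠ F b x)
    (g : X → Ordinal.{u}) : {a ∈ S | Pos W {x ∈ B | F a x = g x}}.Countable := by
  set T := {a ∈ S | Pos W {x ∈ B | F a x = g x}} with hT
  have key : ∀ a ∈ T, ∀ b ∈ T, a ≠ b → ¬ Pos W ({x ∈ B | F a x = g x} ∩ {x ∈ B | F b x = g x}) := by
    intro a ha b hb hab
    rw [not_pos]
    filter_upwards [hF a ha.1 b hb.1 hab] with x hx hx2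
    exact hx hx2.1.1 (hx2.1.2.trans hx2.2.2.symm)
  have hinj : InjOn (fun a => {x ∈ B | F a x = g x}) T := by
    intro a ha b hb hab
    by_contra hne
    have h1 := key a ha b hb hne
    simp only at hab
    rw [← hab, inter_self] at h1
    exact h1 ha.2
  have hc : ((fun a => {x ∈ B | F a x = g x}) '' T).Countable := by
    apply hs
    · rintro C ⟨a, ha, rfl⟩
      exact ha.2
    · rintro C ⟨a, ha, rfl⟩ D ⟨b, hb, rfl⟩ hCD
      exact key a ha b hb (fun h => hCD (by rw [h]))
  exact countable_of_injective_of_countable_image hinj hc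

/-- the set of values of the constant `r` below `B` is countable -/
theorem Rep.countable_val (hs : Saturated W) (h : Rep W A t l f) (hB : B ⊆ A) (r : Ordinal.{u}) :
    {a | a < l ∧ Pos W {x ∈ B | f a x = r}}.Countable := by
  have := countable_of_ae_ne (B := B) hs (Iio l) f (fun a ha b hb hab => ?_) (fun _ => r)
  · exact this
  · rcases lt_or_gt_of_ne hab with h1 | h1
    · filter_upwards [h.inc a b h1 hb] with x hx hxB
      exact (hx (hB hxB)).ne
    · filter_upwards [h.inc b a h1 ha] with x hx hxB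
      exact (hx (hB hxB)).ne'

/-- fewer than `κ` sets whose union covers a positive set: one of them meets it in a
positive set -/
theorem Pos.exists_of_cover {κ : Cardinal.{u}} [CardinalInterFilter W κ] (h : Pos W A)
    {ι : Type u} (hι : #ι < κ) (C : ι → Set X) (hC : A ⊆ ⋃ i, C i) : ∃ i, Pos W (A ∩ C i) := by
  by_contra hcon
  push Not at hcon
  apply h
  have h1 : ∀ i, ∀ᶠ x in W, x ∉ A ∩ C i := fun i => not_pos.1 (hcon i)
  have h2 : ∀ᶠ x in W, ∀ i, x ∉ A ∩ C i := (eventually_cardinal_forall hι).2 h1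
  filter_upwards [h2] with x hx hxA
  obtain ⟨i, hi⟩ := mem_iUnion.1 (hC hxA)
  exact hx i ⟨hxA, hi⟩

end Pool.Agent.Helper65.GS
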