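import Pool.Agent.Helper65.GS.St

/-!
# Functions into an ordinal of cofinality different from the completeness are bounded on a
positive set
-/

set_option autoImplicit false

open Cardinal Ordinal Set Filter

universe u

namespace Pool.Agent.Helper65.GS

theorem bd : StBD.{u} := by
  intro X κ W B _ hcard hcompl hpos r g hr hne hae
  haveI := hcompl
  have hB : Pos W {x ∈ B | g x < r} := hpos.ae hae
  rcases lt_or_gt_of_ne hne with h | h
  · obtain ⟨ι, c, hc, hι⟩ := Ordinal.exists_lsub_cof r
    obtain ⟨i, hi⟩ := hB.exists_of_cover (κ := κ) (ι := ι) (by rw [hι]; exact h)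
      (fun i => {x | g x ≤ c i}) (by
        rintro x ⟨_, hx2⟩
        rw [← hc, lt_lsub_iff] at hx2
        obtain ⟨i, hi⟩ := hx2
        exact mem_iUnion.2 ⟨i, hi⟩)
    refine ⟨c i + 1, ?_, hi.mono ?_⟩
    · have h1 : c i < r := by
        rw [← hc]
        exact lt_lsub c i
      exact hr.add_one_lt h1
    · rintro x ⟨⟨h1, _⟩, h3⟩
      exact ⟨h1, Order.lt_add_one_iff.2 h3⟩
  · have h0 : (0 : Ordinal.{u}) < r := hr.bot_lt
    have h1 : ∀ x, (if g x < r then g x else 0) < r := by
      intro x
      split_ifs with hx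
      · exact hx
      · exact h0
    have h2 := iSup_add_one_lt_of_lt_cof (α := X) (by rw [hcard]; exact h) h1
    refine ⟨_, h2, hB.mono ?_⟩
    rintro x ⟨hx, hx2⟩
    refine ⟨hx, lt_of_lt_of_le ?_ (Ordinal.le_iSup _ x)⟩
    rw [if_pos hx2]
    exact lt_add_one _

end Pool.Agent.Helper65.GS
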