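import Pool.Agent.Helper65.GS.St

/-!
# Saturated filters, module BDAE: a function into an ordinal of uncountable cofinality different
from `κ` is bounded almost everywhere
-/

set_option autoImplicit false

open Cardinal Ordinal Set Filter

universe u

namespace Pool.Agent.Helper65.GS

theorem exists_cofinal_bdae (r : Ordinal.{u}) (hr : Order.IsSuccLimit r) :
    ∃ (ι : Type u) (c : ι → Ordinal.{u}), #ι = r.cof ∧ (∀ i, c i < r) ∧
      ∀ x < r, ∃ i, x < c i := by
  obtain ⟨s, hs, hs2⟩ := Order.exists_cof_eq r.ToType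
  refine ⟨s, fun i => (Ordinal.ToType.mk.symm i.1).1, ?_, ?_, ?_⟩
  · rw [hs2, cof_toType]
  · intro i
    exact (Ordinal.ToType.mk.symm i.1).2
  · intro x hx
    have hx1 : Order.succ x < r := hr.succ_lt hx
    obtain ⟨y, hy, hxy⟩ := hs (Ordinal.ToType.mk ⟨Order.succ x, hx1⟩)
    refine ⟨⟨y, hy⟩, ?_⟩
    have h1 := Ordinal.ToType.mk.symm.monotone hxy
    rw [OrderIso.symm_apply_apply] at h1
    exact lt_of_lt_of_le (Order.lt_succ x) h1

theorem bdae : StBDAE.{u} := by
  intro X κ W B hreg hX hW hsat hκ r g hcof hne hg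
  have hlim : Order.IsSuccLimit r := aleph0_le_cof.1 hcof.le
  have hr0 : 0 < r := by
    rw [← cof_pos]
    exact lt_trans aleph0_pos hcof
  rcases lt_or_gt_of_ne hne with h | h
  · -- `r.cof < κ`
    obtain ⟨ι, c, hι, hc, hc2⟩ := exists_cofinal_bdae r hlim
    have hιne : Nonempty ι := by
      rw [← Cardinal.mk_ne_zero_iff, hι]
      exact (lt_trans aleph0_pos hcof).ne'
    have hidx : ∀ x, ∃ i : ι, g x < r → g x < c i := by
      intro x
      by_cases hx : g x < r
      · obtain ⟨i, hi⟩ := hc2 (g x) hx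
        exact ⟨i, fun _ => hi⟩
      · exact ⟨hιne.some, fun h => absurd h hx⟩
    choose idx hidx using hidx
    set C : ι → Set X := fun i => {x ∈ B | g x < r ∧ idx x = i} with hC
    set S : Set ι := {i | Pos W (C i)} with hS
    have hSc : S.Countable := by
      have hinj : InjOn C S := by
        intro i hi j hj hij
        obtain ⟨x, hx⟩ := Pos.nonempty hi
        have hx2 : x ∈ C j := hij ▸ hx
        exact hx.2.2.symm.trans hx2.2.2
      have hcnt : (C '' S).Countable := by
        apply hsat
        · rintro D ⟨i, hi, rfl⟩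
          exact hi
        · rintro D ⟨i, hi, rfl⟩ E ⟨j, hj, rfl⟩ hne2 hpos
          obtain ⟨x, hx1, hx2⟩ := hpos.nonempty
          exact hne2 (by rw [← hx1.2.2, ← hx2.2.2])
      exact countable_of_injective_of_countable_image hinj hcnt
    have hSlt : #S < r.cof := lt_of_le_of_lt (le_aleph0_iff_set_countable.2 hSc) hcof
    refine ⟨⨆ i : S, c i, iSup_lt_of_lt_cof hSlt fun i => hc i, ?_⟩
    have h1 : ∀ i, ∀ᶠ x in W, i ∉ S → x ∉ C i := by
      intro i
      by_cases hi : i ∈ S
      · exact Eventually.of_forall fun x h => absurd hi h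
      · exact (not_pos.1 hi).mono fun x hx _ => hx
    have h2 : ∀ᶠ x in W, ∀ i, i ∉ S → x ∉ C i :=
      (eventually_cardinal_forall (c := κ) (by rw [hι]; exact h)).2 h1
    filter_upwards [h2, hg] with x hx hgx hxB
    have hlt := hgx hxB
    have hmem : x ∈ C (idx x) := ⟨hxB, hlt, rfl⟩
    have hiS : idx x ∈ S := by
      by_contra hcon
      exact hx _ hcon hmem
    exact lt_of_lt_of_le (hidx x hlt) (Ordinal.le_iSup (fun i : S => c i) ⟨idx x, hiS⟩)
  · -- `κ < r.cof`
    classical
    refine ⟨⨆ x : X, (if g x < r then g x else 0) + 1, ?_, ?_⟩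
    · apply iSup_add_one_lt_of_lt_cof (by rw [hX]; exact h)
      intro x
      split
      · assumption
      · exact hr0
    · filter_upwards [hg] with x hx hxB
      have hlt := hx hxB
      have h3 := Ordinal.le_iSup (fun x : X => (if g x < r then g x else 0) + 1) x
      simp only [if_pos hlt] at h3
      exact lt_of_lt_of_le (Order.lt_add_one_iff.2 le_rfl) h3

end Pool.Agent.Helper65.GS
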