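import Pool.Agent.Helper65.GS.St

/-!
# Saturated filters: if the value of `t` is a larger cardinal then `t` is a cardinal
-/

set_option autoImplicit false

open Cardinal Ordinal Set Filter

universe u

namespace Pool.Agent.Helper65.GS

/-- Ordinals of the same cardinality: an injection of the one into the other. -/
theorem exists_injOn_of_card_eq {t s : Ordinal.{u}} (h : t.card = s.card) :
    ∃ h : Ordinal.{u} → Ordinal.{u}, InjOn h (Iio t) ∧ MapsTo h (Iio t) (Iio s) := by
  classical
  have h1 : #(Iio t) = #(Iio s) := by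
    rw [Cardinal.mk_Iio_ordinal, Cardinal.mk_Iio_ordinal, h]
  obtain ⟨e⟩ := Cardinal.eq.1 h1
  refine ⟨fun a => if ha : a ∈ Iio t then ((e ⟨a, ha⟩ : Iio s) : Ordinal.{u}) else 0, ?_, ?_⟩
  · intro a ha b hb hab
    simp only [dif_pos ha, dif_pos hb] at hab
    have h2 := e.injective (Subtype.ext hab)
    exact congrArg Subtype.val h2
  · intro a ha
    simp only [dif_pos ha]
    exact (e ⟨a, ha⟩).2

theorem card (hs : StSMALL.{u}) (hc : StCMP.{u}) : StCARD.{u} := by
  intro X κ W A t l f S htl hl
  by_contra hne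
  have hle : t.card.ord ≤ t := Cardinal.ord_le.2 le_rfl
  have hlt : t.card.ord < t := lt_of_le_of_ne hle hne
  set s0 := t.card.ord with hs0
  obtain ⟨d, hd, hB⟩ := S.rep.val (B := A) subset_rfl S.pos hlt
  obtain ⟨h, hinj, hmap⟩ := exists_injOn_of_card_eq (t := t) (s := s0)
    (by rw [hs0, Cardinal.card_ord])
  have key := hc κ W A t l f S {x ∈ A | f d x = s0} (fun x hx => hx.1) hB t s0 l d h le_rfl hle
    le_rfl hinj hmap (fun a ha => (S.rep.bd a ha).mono fun x hx hxB => hx hxB.1)
    (fun c hcl hcp => S.rep.lt_of_lt (B := {x ∈ {x ∈ A | f d x = s0} | f c x < s0})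
      (fun x hx => hx.1.1) hcp hcl (fun x hx => by rw [hx.1.2]; exact hx.2))
  have h1 : d.card < l.card := by
    rw [← Cardinal.lt_ord]
    have : l.card.ord = l := hl
    rw [this]
    exact hd
  have h2 : κ.ord < l := lt_of_le_of_lt (hs κ W A t l f S htl) htl
  have h3 : κ < l.card := by
    have : l.card.ord = l := hl
    rw [← this, Cardinal.ord_lt_ord] at h2
    exact h2
  exact absurd key (not_le.2 (max_lt h1 (S.unc.trans h3)))

end Pool.Agent.Helper65.GS
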