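import Pool.Agent.Helper65.GS.St

/-!
# Saturated filters: the module CHAIN
-/

set_option autoImplicit false

open Cardinal Ordinal Set Filter

universe u

namespace Pool.Agent.Helper65.GS

theorem chain (_hs : StSMALL.{u}) (hc : StCOF.{u}) (hl : StLIM.{u}) : StCHAIN.{u} := by
  intro X κ W A t l f S htl hcl hcof hne
  have hrep := S.rep
  choose R hRt hR using hc κ W A t l f S hcof hne
  choose M hMl hMc hM using hl κ W A t l f S htl hcl hcof hne
  -- the sequence
  let nxt : Iio t → Iio t := fun r => ⟨R (M r.1 r.2) (hMl r.1 r.2), hRt _ _⟩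
  let s : ℕ → Iio t := fun n => nxt^[n] ⟨R t htl, hRt t htl⟩
  have hs_succ : ∀ n, s (n + 1) = nxt (s n) := fun n => Function.iterate_succ_apply' nxt n _
  obtain ⟨r, hr⟩ : ∃ r : ℕ → Ordinal.{u}, ∀ n, r n = (s n).1 := ⟨_, fun _ => rfl⟩
  obtain ⟨m, hm⟩ : ∃ m : ℕ → Ordinal.{u}, ∀ n, m n = M (s n).1 (s n).2 := ⟨_, fun _ => rfl⟩
  have hrt : ∀ n, r n < t := fun n => by rw [hr]; exact (s n).2
  have hml : ∀ n, m n < l := fun n => by rw [hm]; exact hMl _ _
  have hmc : ∀ n, IsCard (m n) := fun n => by rw [hm]; exact hMc _ _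
  have P0 : ∀ c < l, Pos W {x ∈ A | f c x = r 0} → t < c := by
    intro c hcl' hp
    rw [hr] at hp
    exact hR t htl c hcl' hp
  have P1 : ∀ n, ∀ c < l, Pos W {x ∈ A | f c x = r n} → c < m n := by
    intro n c hcl' hp
    rw [hr] at hp
    rw [hm]
    exact hM _ _ c hcl' hp
  have P2 : ∀ n, ∀ c < l, Pos W {x ∈ A | f c x = r (n + 1)} → m n < c := by
    intro n c hcl' hp
    rw [hr, hs_succ] at hp
    rw [hm]
    exact hR _ _ c hcl' hp
  have hrs : ∀ n, r n < r (n + 1) := by
    intro n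
    by_contra hcon
    rw [not_lt] at hcon
    obtain ⟨c, hcl', hcp⟩ := hrep.val (subset_refl A) S.pos (hrt (n + 1))
    obtain ⟨c2, hc2l, hc2p⟩ := hrep.val (sep_subset A _) hcp (hrt n)
    have h1 := P2 n c hcl' hcp
    have h2 := P1 n c2 hc2l (hc2p.mono fun x hx => ⟨hx.1.1, hx.2⟩)
    have h3 : c ≤ c2 := hrep.le_of_le (fun x hx => hx.1.1) hc2p hcl' (by
      intro x hx
      rw [hx.1.2, hx.2]
      exact hcon)
    exact absurd (h3.trans_lt (h2.trans h1)) (lt_irrefl _)
  have hmono : StrictMono r := strictMono_nat_of_lt_succ hrs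
  have hbr : BddAbove (range r) := bddAbove_of_small
  have hbm : BddAbove (range m) := bddAbove_of_small
  have hnt : (⨆ k, r k) < t := by
    refine lift_iSup_lt_of_lt_cof ?_ hrt
    simpa using hcof
  have hmle : ∀ k, m k ≤ ⨆ k, m k := fun k => le_ciSup hbm k
  have hl'l : (⨆ k, m k) ≤ l := ciSup_le fun k => (hml k).le
  refine ⟨⨆ k, r k, ⨆ k, m k, hnt, ?_, ?_, ?_, ?_⟩
  · have := lift_cof_iSup hmono
    rw [Order.cof_eq_aleph0] at this
    simpa using this
  · obtain ⟨c, hcl', hcp⟩ := hrep.val (subset_refl A) S.pos (hrt 0)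
    exact hnt.trans ((P0 c hcl' hcp).trans ((P1 0 c hcl' hcp).trans_le (hmle 0)))
  · apply le_antisymm (Cardinal.ord_card_le _)
    refine ciSup_le fun k => ?_
    have h := hmc k
    unfold IsCard at h
    rw [← h]
    exact Cardinal.ord_le_ord.2 (Ordinal.card_le_card (hmle k))
  · constructor
    · intro a ha
      obtain ⟨k, hk⟩ := exists_lt_of_lt_ciSup ha
      have hal : a < l := hk.trans (hml k)
      have key : ∀ᶠ x in W, x ∈ A → f a x < r (k + 1) := by
        by_contra hcon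
        have hp : Pos W {x ∈ A | ¬ f a x < r (k + 1)} := by
          by_contra hnp
          apply hcon
          filter_upwards [not_pos.1 hnp] with x hx hxA
          by_contra hlt
          exact hx ⟨hxA, hlt⟩
        obtain ⟨c, hcl', hcp⟩ := hrep.val (sep_subset A _) hp (hrt (k + 1))
        have h1 := P2 k c hcl' (hcp.mono fun x hx => ⟨hx.1.1, hx.2⟩)
        have h2 : c ≤ a := hrep.le_of_le (fun x hx => hx.1.1) hcp hcl' (by
          intro x hx
          rw [hx.2]
          exact not_lt.1 hx.1.2)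
        exact absurd (h2.trans_lt (hk.trans h1)) (lt_irrefl _)
      exact key.mono fun x hx hxA => (hx hxA).trans_le (le_ciSup hbr _)
    · intro a b hab hb
      exact hrep.inc a b hab (hb.trans_le hl'l)
    · intro B hB hBp g hg
      have := S.compl
      have hcov : B ⊆ ⋃ i : ULift.{u} ℕ, {x | g x < r i.down} := by
        intro x hx
        obtain ⟨k, hk⟩ := exists_lt_of_lt_ciSup (hg x hx)
        exact mem_iUnion.2 ⟨⟨k⟩, hk⟩
      obtain ⟨⟨k⟩, hk⟩ := hBp.exists_of_cover (by simpa using S.unc) _ hcov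
      obtain ⟨a, hal, hap⟩ := hrep.onto _ (inter_subset_left.trans hB) hk g
        (fun x hx => (hg x hx.1).trans hnt)
      obtain ⟨c, hcl', hac, hcp⟩ := hrep.up (fun x hx => hB hx.1.1) hap hal (hrt k) (by
        intro x hx
        rw [← hx.2]
        exact hx.1.2)
      have h1 := P1 k c hcl' (hcp.mono fun x hx => ⟨hB hx.1.1.1, hx.2⟩)
      exact ⟨a, (hac.trans h1).trans_le (hmle k), hap.mono fun x hx => ⟨hx.1.1, hx.2⟩⟩

end Pool.Agent.Helper65.GS
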