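import Pool.Agent.Helper65.GS.St

set_option autoImplicit false

open Cardinal Ordinal Set Filter

universe u

namespace Pool.Agent.Helper65.GS

theorem cmp : StCMP.{u} := by
  intro X κ W A t l f hS B hB hpB r r' s v h hr hr' hs hinj hmaps hlt hup
  have hrep := hS.rep
  -- for every `a < s` a value
  have hex : ∀ a : Iio s, ∃ c : Iio v,
      Pos W {x ∈ B | h (f a x) = f c x} := by
    rintro ⟨a, ha⟩
    have h1 : Pos W {x ∈ B | f a x < r} := hpB.ae (hlt a ha)
    obtain ⟨c, hc, hc2⟩ := hrep.onto {x ∈ B | f a x < r} (fun x hx => hB hx.1) h1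
      (fun x => h (f a x)) (fun x hx => (hmaps hx.2).trans_le hr')
    have h3 : Pos W {x ∈ B | f c x < r'} := hc2.mono fun x hx => by
      refine ⟨hx.1.1, ?_⟩
      have h5 : h (f a x) = f c x := hx.2
      have h6 : h (f a x) < r' := hmaps hx.1.2
      rw [h5] at h6
      exact h6
    exact ⟨⟨c, hup c hc h3⟩, hc2.mono fun x hx => ⟨hx.1.1, hx.2⟩⟩
  choose c hc using hex
  -- the fibres are countable
  have hfib : ∀ d : Iio v, #(c ⁻¹' {d}) ≤ ℵ₀ := by
    intro d
    have hcount := countable_of_ae_ne (B := B) hS.sat (Iio s) (fun a x => h (f a x)) (by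
      intro a ha b hb hab
      have hne : ∀ᶠ x in W, x ∈ B → f a x ≠ f b x := by
        rcases lt_or_gt_of_ne hab with h1 | h1
        · filter_upwards [hrep.inc a b h1 (lt_of_lt_of_le hb hs)] with x hx hxB
          exact (hx (hB hxB)).ne
        · filter_upwards [hrep.inc b a h1 (lt_of_lt_of_le ha hs)] with x hx hxB
          exact (hx (hB hxB)).ne'
      filter_upwards [hne, hlt a ha, hlt b hb] with x hx h1 h2 hxB he
      exact hx hxB (hinj (h1 hxB) (h2 hxB) he)) (f d)
    have hsub : (c ⁻¹' {d}) ⊆ (Subtype.val ⁻¹' {a ∈ Iio s | Pos W {x ∈ B | h (f a x) = f d x}}) := by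
      intro a ha
      refine ⟨a.2, ?_⟩
      have := hc a
      have ha' : c a = d := ha
      rw [ha'] at this
      exact this
    have h2 : (c ⁻¹' {d}).Countable := (hcount.preimage Subtype.val_injective).mono hsub
    exact le_aleph0_iff_set_countable.2 h2
  have h4 : #(Iio s) ≤ #(Iio v) * ℵ₀ := mk_le_mk_mul_of_mk_preimage_le c hfib
  rw [Cardinal.mk_Iio_ordinal, Cardinal.mk_Iio_ordinal, ← lift_aleph0.{u + 1, u}, ← Cardinal.lift_mul, Cardinal.lift_le] at h4
  refine h4.trans ?_
  rcases le_total v.card ℵ₀ with h5 | h5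
  · exact (mul_le_mul' h5 le_rfl).trans (by rw [aleph0_mul_aleph0]; exact le_max_right _ _)
  · rw [mul_eq_max_of_aleph0_le_left h5 aleph0_ne_zero]

end Pool.Agent.Helper65.GS
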