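import Pool.Agent.Helper65.GS.St

/-!
# Saturated filters, module COF: uncountable cofinality different from `κ`
-/

set_option autoImplicit false

open Cardinal Ordinal Set Filter

universe u

namespace Pool.Agent.Helper65.GS

theorem cofi (hb : StBDAE.{u}) : StCOF.{u} := by
  intro X κ W A t l f hS h1 h2 a ha
  obtain ⟨r, hr, hae⟩ := hb κ W A hS.reg hS.card hS.compl hS.sat hS.unc t (f a) h1 h2
    (hS.rep.bd a ha)
  refine ⟨r, hr, fun c _ hp => ?_⟩
  have hp2 : Pos W {x ∈ {x ∈ A | f c x = r} | f a x < r} :=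
    hp.ae (hae.mono fun x hx hxA => hx hxA.1)
  refine hS.rep.lt_of_lt (B := {x ∈ {x ∈ A | f c x = r} | f a x < r}) (fun x hx => hx.1.1) hp2
    ha ?_
  intro x hx
  rw [hx.1.2]
  exact hx.2

end Pool.Agent.Helper65.GS
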