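import Mathlib

/-!
# Saturated filters and values of ordinals under the generic ultrapower: definitions
-/

set_option autoImplicit false

open Cardinal Ordinal Set Filter

universe u

namespace Pool.Agent.Helper65.GS

variable {X : Type u}

/-- `A` is positive for the filter `W`: its complement does not belong to `W`. -/
def Pos (W : Filter X) (A : Set X) : Prop := Aᶜ ∉ W

/-- The filter `W` is saturated at the first uncountable cardinal: every family of positive sets
whose pairwise intersections are not positive is countable. -/
def Saturated (W : Filter X) : Prop :=
  ∀ S : Set (Set X), (∀ B ∈ S, Pos W B) →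
    (∀ B ∈ S, ∀ C ∈ S, B ≠ C → ¬ Pos W (B ∩ C)) → S.Countable

/-- The functions `f a`, for `a < l`, represent below the positive set `A` an isomorphism of the
ordinal `l` with the image of the ordinal `t` under the generic embedding: they have values in
`t` and are increasing almost everywhere on `A`, and every function with values in `t` on a
positive subset of `A` agrees with one of them on a positive set. -/
structure Rep (W : Filter X) (A : Set X) (t l : Ordinal.{u})
    (f : Ordinal.{u} → X → Ordinal.{u}) : Prop where
  bd : ∀ a < l, ∀ᶠ x in W, x ∈ A → f a x < t
  inc : ∀ a b, a < b → b < l → ∀ᶠ x in W, x ∈ A → f a x < f b x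
  onto : ∀ B ⊆ A, Pos W B → ∀ g : X → Ordinal.{u}, (∀ x ∈ B, g x < t) →
    ∃ a < l, Pos W {x ∈ B | g x = f a x}

/-- The condition `A` forces that the generic embedding takes the ordinal `t` to the
ordinal `l`. -/
def Forces (W : Filter X) (A : Set X) (t l : Ordinal.{u}) : Prop :=
  ∃ f : Ordinal.{u} → X → Ordinal.{u}, Rep W A t l f

/-- The ordinal `t` is a cardinal. -/
def IsCard (t : Ordinal.{u}) : Prop := t.card.ord = t

end Pool.Agent.Helper65.GS
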