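import Pool.Agent.Helper65.GS.St

set_option autoImplicit false

open Cardinal Ordinal Set Filter

universe u v

namespace Pool.Agent.Helper65.GS

private theorem supGrow {β : Type v} (f : β → Ordinal.{u}) (χ : Cardinal.{u}) (hχ : ℵ₀ ≤ χ)
    (hβ : Cardinal.lift.{u} #β ≤ Cardinal.lift.{v} χ) (hf : ∀ i, (f i).card ≤ χ) :
    ∃ s : Ordinal.{u}, s.card ≤ χ ∧ ∀ i, f i < s := by
  have hsm : Small.{u} β := by
    have h1 : Cardinal.lift.{u} #β ≤ Cardinal.lift.{v} #(χ.out) := by rwa [Cardinal.mk_out]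
    obtain ⟨e⟩ := Cardinal.lift_mk_le'.1 h1
    exact small_of_injective e.injective
  refine ⟨⨆ i, (f i + 1), ?_, fun i => Ordinal.lt_iSup_add_one f i⟩
  rw [Cardinal.card_le_iff]
  apply Ordinal.lift_iSup_add_one_lt_of_lt_cof
  · rw [← Ordinal.lift_cof, (Cardinal.isRegular_succ hχ).cof_ord]
    exact hβ.trans_lt (Cardinal.lift_lt.2 (Order.lt_succ χ))
  · intro i
    exact Cardinal.card_le_iff.1 (hf i)

theorem grow (hc : StCMP.{u}) (hb : StBD.{u}) : StGROW.{u} := by
  intro X κ W A t l f S B hBA hB r₀ χ hκr hr₀t htχ hχ hm h0 r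
  induction r using WellFoundedLT.induction with
  | _ r ih =>
  intro hr hrt a ha hC
  rcases hr.eq_or_lt with rfl | hr
  · exact h0 a ha hC
  -- the bounds
  have hv : ∀ r1, r₀ ≤ r1 → r1 < r → ∃ s : Ordinal.{u}, s.card ≤ χ ∧
      ∀ c, c < l → Pos W {x ∈ B | f c x = r1} → c < s := by
    intro r1 h1 h2
    have hcount := S.rep.countable_val S.sat hBA r1
    obtain ⟨s, hs, hs2⟩ := supGrow
      (fun c : {a | a < l ∧ Pos W {x ∈ B | f a x = r1}} => (c : Ordinal.{u})) χ hχ (by
        have := hcount.le_aleph0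
        calc Cardinal.lift.{u} #{a | a < l ∧ Pos W {x ∈ B | f a x = r1}} ≤ Cardinal.lift.{u} ℵ₀ :=
              Cardinal.lift_le.2 this
          _ = ℵ₀ := Cardinal.lift_aleph0
          _ = Cardinal.lift.{u+1} ℵ₀ := Cardinal.lift_aleph0.symm
          _ ≤ Cardinal.lift.{u+1} χ := Cardinal.lift_le.2 hχ) (fun c => ih r1 h2 h1 (h2.trans hrt) c.1 c.2.1 c.2.2)
    exact ⟨s, hs, fun c hc hp => hs2 ⟨c, hc, hp⟩⟩
  choose! v hvc hv2 using hv
  set C := {x ∈ B | f a x = r} with hCdef
  have hCB : C ⊆ B := fun x hx => hx.1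
  have hCA : C ⊆ A := hCB.trans hBA
  -- the key
  have key : ∀ r1, r₀ ≤ r1 → r1 < r → ∀ b, b < l → Pos W {x ∈ C | f b x < r1} → b < v r1 := by
    intro r1 h1 h2 b hb hp
    obtain ⟨c, hc, hbc, hp2⟩ := S.rep.up (B := {x ∈ C | f b x < r1}) (fun x hx => hCA hx.1) hp hb
      (h2.trans hrt) (fun x hx => hx.2)
    exact hbc.trans (hv2 r1 h1 h2 c hc (hp2.mono fun x hx => ⟨hCB hx.1.1, hx.2⟩))
  have hae : ∀ b < a, ∀ᶠ x in W, x ∈ C → f b x < r := by
    intro b hba
    filter_upwards [S.rep.inc b a hba ha] with x hx hxC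
    have h1 := hx (hCA hxC)
    rwa [hxC.2] at h1
  by_cases hcard : IsCard r
  · -- a cardinal
    have hcof := hm r hr hrt hcard
    have hκ : κ.ord ≤ r := hκr.trans hr.le
    have hinf : ℵ₀ ≤ r.card := S.unc.le.trans (Cardinal.ord_le.1 hκ)
    have hlim : Order.IsSuccLimit r := by
      rw [← hcard]
      exact Cardinal.isSuccLimit_ord hinf
    have hcov : ∀ b < a, ∃ r1, r₀ ≤ r1 ∧ r1 < r ∧ b < v r1 := by
      intro b hba
      obtain ⟨r', hr', hp⟩ := hb κ W C S.reg S.card S.compl hC r (f b) hlim hcof (hae b hba)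
      refine ⟨max r₀ r', le_max_left _ _, max_lt hr hr', ?_⟩
      apply key _ (le_max_left _ _) (max_lt hr hr') b (hba.trans ha)
      exact hp.mono fun x hx => ⟨hx.1, lt_of_lt_of_le hx.2 (le_max_right _ _)⟩
    obtain ⟨s, hs, hs2⟩ := supGrow
      (fun c : {r1 : Iio r | r₀ ≤ r1.1} => v c.1.1) χ hχ (by
        have h1 : #{r1 : Iio r | r₀ ≤ r1.1} ≤ #(Iio r) := Cardinal.mk_set_le _
        rw [Cardinal.mk_Iio_ordinal] at h1
        calc Cardinal.lift.{u} #{r1 : Iio r | r₀ ≤ r1.1} ≤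
              Cardinal.lift.{u} (Cardinal.lift.{u+1} r.card) := Cardinal.lift_le.2 h1
          _ = Cardinal.lift.{u+1} r.card := Cardinal.lift_lift _
          _ ≤ Cardinal.lift.{u+1} χ := Cardinal.lift_le.2 ((Ordinal.card_le_card hrt.le).trans htχ))
      (fun c => hvc c.1.1 c.2 c.1.2)
    have has : a ≤ s := by
      by_contra hcon
      rw [not_le] at hcon
      obtain ⟨r1, h1, h2, h3⟩ := hcov s hcon
      exact absurd (h3.trans (hs2 ⟨⟨r1, h2⟩, h1⟩)) (lt_irrefl _)
    exact (Ordinal.card_le_card has).trans hs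
  · have hlt : r.card.ord < r := lt_of_le_of_ne (Cardinal.ord_card_le r) hcard
    set r1 := max r₀ r.card.ord with hr1
    have h1 : r₀ ≤ r1 := le_max_left _ _
    have h2 : r1 < r := max_lt hr hlt
    have h3 : r.card ≤ r1.card := by
      have := Ordinal.card_le_card (le_max_right r₀ r.card.ord)
      rwa [Cardinal.card_ord] at this
    have h4 : #(Iio r) ≤ #(Iio r1) := by
      rw [Cardinal.mk_Iio_ordinal, Cardinal.mk_Iio_ordinal]
      exact Cardinal.lift_le.2 h3
    obtain ⟨e⟩ := Cardinal.le_def _ _ |>.1 h4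
    classical
    have h5 := hc κ W A t l f S C hCA hC r r1 a (v r1)
      (fun x => if hx : x < r then ((e ⟨x, hx⟩ : Iio r1) : Ordinal.{u}) else 0)
      hrt.le (h2.trans hrt).le ha.le
      (by
        intro x hx y hy hxy
        have hx' : x < r := hx
        have hy' : y < r := hy
        simp only [hx', hy', dif_pos] at hxy
        have := e.injective (Subtype.ext hxy)
        exact congrArg Subtype.val this)
      (by
        intro x hx
        have hx' : x < r := hx
        simp only [hx', dif_pos]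
        exact (e ⟨x, hx⟩).2)
      hae (fun c hc' hp => key r1 h1 h2 c hc' hp)
    exact h5.trans (max_le (hvc r1 h1 h2) hχ)

end Pool.Agent.Helper65.GS
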