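import Pool.Agent.Helper65.GS.St

/-!
# Saturated filters: unboundedness of the cardinals of cofinality `κ`
-/

set_option autoImplicit false

open Cardinal Ordinal Set Filter

universe u

namespace Pool.Agent.Helper65.GS

/-- a union over fewer indices of countably many small initial segments is small -/
theorem jump_count {t l : Ordinal.{u}} {χ : Cardinal.{u}} (h0 : ℵ₀ ≤ χ) (ht : t.card ≤ χ)
    (T : Ordinal.{u} → Set Ordinal.{u}) (hT : ∀ r, (T r).Countable)
    (hc : ∀ r < t, ∀ c ∈ T r, c.card ≤ χ)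
    (hcov : ∀ b < l, ∃ r < t, ∃ c ∈ T r, b < c) : l.card ≤ χ := by
  have hlift : ℵ₀ ≤ Cardinal.lift.{u + 1} χ := Cardinal.aleph0_le_lift.2 h0
  have h1 : Iio l ⊆ ⋃ r ∈ Iio t, ⋃ c ∈ T r, Iio c := by
    intro b hb
    obtain ⟨r, hr, c, hcT, hbc⟩ := hcov b hb
    simp only [mem_iUnion]
    exact ⟨r, hr, c, hcT, hbc⟩
  have h2 : ∀ r < t, #(⋃ c ∈ T r, Iio c : Set Ordinal.{u}) ≤ Cardinal.lift.{u + 1} χ := by
    intro r hr
    refine (Cardinal.mk_biUnion_le _ _).trans ?_
    have h3 : #(T r) ≤ Cardinal.lift.{u + 1} χ := ((hT r).le_aleph0).trans hlift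
    have h4 : (⨆ c : T r, #(Iio c.1)) ≤ Cardinal.lift.{u + 1} χ := by
      refine ciSup_le' fun c => ?_
      rw [Cardinal.mk_Iio_ordinal, Cardinal.lift_le]
      exact hc r hr c.1 c.2
    calc #(T r) * (⨆ c : T r, #(Iio c.1)) ≤ Cardinal.lift.{u + 1} χ * Cardinal.lift.{u + 1} χ :=
          mul_le_mul' h3 h4
      _ = Cardinal.lift.{u + 1} χ := Cardinal.mul_eq_self hlift
  have h5 : #(Iio l) ≤ Cardinal.lift.{u + 1} χ := by
    refine (Cardinal.mk_le_mk_of_subset h1).trans ((Cardinal.mk_biUnion_le _ _).trans ?_)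
    have h3 : #(Iio t) ≤ Cardinal.lift.{u + 1} χ := by
      rw [Cardinal.mk_Iio_ordinal, Cardinal.lift_le]
      exact ht
    have h4 : (⨆ r : Iio t, #(⋃ c ∈ T r.1, Iio c : Set Ordinal.{u})) ≤
        Cardinal.lift.{u + 1} χ := ciSup_le' fun r => h2 r.1 r.2
    calc #(Iio t) * (⨆ r : Iio t, #(⋃ c ∈ T r.1, Iio c : Set Ordinal.{u})) ≤
          Cardinal.lift.{u + 1} χ * Cardinal.lift.{u + 1} χ := mul_le_mul' h3 h4
      _ = Cardinal.lift.{u + 1} χ := Cardinal.mul_eq_self hlift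
  rw [Cardinal.mk_Iio_ordinal, Cardinal.lift_le] at h5
  exact h5

theorem jump (hs : StSMALL.{u}) (hk : StCARD.{u}) (hg : StGROW.{u}) (hb : StBD.{u}) :
    StJUMP.{u} := by
  intro X κ W A t l f hS htl hl hcof r hr
  by_contra hno
  push Not at hno
  have htc : IsCard t := hk κ W A t l f hS htl hl
  have hkt : κ.ord ≤ t := hs κ W A t l f hS htl
  have hkt' : κ.ord < t := by
    refine lt_of_le_of_ne hkt fun h => hcof ?_
    rw [← h]
    exact hS.reg.cof_ord
  have hktc : κ ≤ t.card := Cardinal.ord_le.1 hkt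
  obtain ⟨d, hd, hdp⟩ := hS.rep.val subset_rfl hS.pos (max_lt hr hkt')
  set r₀ : Ordinal.{u} := max r κ.ord with hr₀
  have hr₀t : r₀ < t := max_lt hr hkt'
  set B : Set X := {x ∈ A | f d x = r₀} with hB
  have hBA : B ⊆ A := fun x hx => hx.1
  set χ : Cardinal.{u} := max d.card t.card with hχ
  have h0 : ℵ₀ ≤ χ := (hS.unc.le.trans hktc).trans (le_max_right _ _)
  have hcardlt : ∀ a < l, a.card < l.card := by
    intro a ha
    rw [← Cardinal.lt_ord, hl]
    exact ha
  have hχl : χ < l.card := max_lt (hcardlt d hd) (hcardlt t htl)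
  have hgrow : ∀ r', r₀ ≤ r' → r' < t → ∀ a < l, Pos W {x ∈ B | f a x = r'} → a.card ≤ χ := by
    refine hg κ W A t l f hS B hBA hdp r₀ χ (le_max_right _ _) hr₀t (le_max_right _ _) h0 ?_ ?_
    · intro m h1 h2 h3
      exact hno m ((le_max_left _ _).trans_lt h1) h2 h3
    · intro a ha hp
      have : a = d := by
        refine hS.rep.eq_of_eq (B := {x ∈ B | f a x = r₀}) (fun x hx => hBA hx.1) hp ha hd ?_
        intro x hx
        rw [hx.2]
        exact hx.1.2.symm
      rw [this]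
      exact le_max_left _ _
  have hlim : Order.IsSuccLimit t := by
    have h1 : Order.IsSuccLimit t.card.ord :=
      Cardinal.isSuccLimit_ord (hS.unc.le.trans hktc)
    rwa [htc] at h1
  have hle : l.card ≤ χ := by
    refine jump_count h0 (le_max_right _ _)
      (fun r' => {c | (c < l ∧ Pos W {x ∈ B | f c x = r'}) ∧ r₀ ≤ r'}) ?_ ?_ ?_
    · intro r'
      exact (hS.rep.countable_val hS.sat hBA r').mono fun c hc => hc.1
    · intro r' hr' c hc
      exact hgrow r' hc.2 hr' c hc.1.1 hc.1.2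
    · intro b hbl
      obtain ⟨r', hr', hp⟩ := hb κ W B hS.reg hS.card hS.compl hdp t (f b) hlim hcof
        ((hS.rep.bd b hbl).mono fun x hx hxB => hx (hBA hxB))
      obtain ⟨c, hc, hbc, hcp⟩ := hS.rep.up (B := {x ∈ B | f b x < r'})
        (fun x hx => hBA hx.1) hp hbl (max_lt hr' hr₀t)
        (fun x hx => hx.2.trans_le (le_max_left _ _))
      exact ⟨max r' r₀, max_lt hr' hr₀t, c,
        ⟨⟨hc, hcp.mono fun x hx => ⟨hx.1.1, hx.2⟩⟩, le_max_right _ _⟩, hbc⟩
  exact absurd hχl (not_lt.2 hle)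

end Pool.Agent.Helper65.GS
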