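import Pool.Agent.Helper65.GS.St

/-!
# Saturated filters: module LIM
-/

set_option autoImplicit false

open Cardinal Ordinal Set Filter

universe u

namespace Pool.Agent.Helper65.GS

theorem lim (hs : StSMALL.{u}) (hc : StCOF.{u}) : StLIM.{u} := by
  intro X κ W A t l f hS htl hl ht1 ht2
  -- values
  set D : Ordinal.{u} → Set Ordinal.{u} :=
    fun r => {c | c < l ∧ Pos W {x ∈ A | f c x = r}} with hD
  have hDne : ∀ r < t, (D r).Nonempty := by
    intro r hr
    obtain ⟨c, hc1, hc2⟩ := hS.rep.val subset_rfl hS.pos hr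
    exact ⟨c, hc1, hc2⟩
  have hDc : ∀ r, (D r).Countable := fun r => hS.rep.countable_val hS.sat subset_rfl r
  have he : ∀ r < t, sInf (D r) ∈ D r := fun r hr => csInf_mem (hDne r hr)
  have hcof := hc κ W A t l f hS ht1 ht2
  have hmono : ∀ r1 r2, r1 < r2 → r2 < t → sInf (D r1) < sInf (D r2) := by
    intro r1 r2 h12 h2
    obtain ⟨hc1, hc2⟩ := he r2 h2
    have hB : {x ∈ A | f (sInf (D r2)) x = r2} ⊆ A := fun x hx => hx.1
    obtain ⟨c, hcl, hcp⟩ := hS.rep.val hB hc2 (h12.trans h2)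
    have h3 : c < sInf (D r2) := by
      refine hS.rep.lt_of_lt (B := {x ∈ {x ∈ A | f (sInf (D r2)) x = r2} | f c x = r1})
        (fun x hx => hx.1.1) hcp hcl ?_
      intro x hx
      rw [hx.2, hx.1.2]
      exact h12
    have h4 : c ∈ D r1 := ⟨hcl, hcp.mono fun x hx => ⟨hx.1.1, hx.2⟩⟩
    exact (csInf_le' h4).trans_lt h3
  have hl2 : l = l.card.ord := hl.symm
  -- `l` is a limit cardinal
  have h1 : ∀ c : Cardinal.{u}, c < l.card → Order.succ c < l.card := by
    intro c hcl
    by_contra hcon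
    have e : l.card = Order.succ c := le_antisymm (not_lt.1 hcon) (Order.succ_le_of_lt hcl)
    have h2 : κ.ord ≤ t := hs κ W A t l f hS htl
    have h3 : κ ≤ t.card := by
      have := Ordinal.card_le_card h2
      rwa [Cardinal.card_ord] at this
    have h4 : t.card < l.card := by
      rw [← Cardinal.lt_ord, ← hl2]
      exact htl
    have h5 : ℵ₀ ≤ c := by
      rw [← Order.lt_succ_iff, ← e]
      exact (hS.unc.trans_le h3).trans h4
    have h6 : l.cof = l.card := by
      conv_lhs => rw [hl2]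
      rw [e]
      exact (isRegular_succ h5).cof_ord
    have h7 : (⨆ i : t.ToType, sInf (D (ToType.mk.symm i))) < l := by
      apply Ordinal.iSup_lt_of_lt_cof
      · rw [Cardinal.mk_toType, h6]
        exact h4
      · intro i
        exact (he _ (ToType.mk.symm i).2).1
    obtain ⟨r, hr, hr2⟩ := hcof _ h7
    have h8 := hr2 _ (he r hr).1 (he r hr).2
    refine absurd h8 (not_lt.2 ?_)
    have h9 := Ordinal.le_iSup (fun i : t.ToType => sInf (D (ToType.mk.symm i)))
      (ToType.mk ⟨r, hr⟩)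
    simpa using h9
  -- the cofinality of `l` is uncountable
  have h2 : ℵ₀ < l.cof := by
    by_contra hcon
    rw [not_lt] at hcon
    obtain ⟨s, hs1, hs2⟩ := Order.exists_cof_eq l.ToType
    rw [Ordinal.cof_toType] at hs2
    have hg : ∀ i : s, ∃ r < t, ∀ c < l, Pos W {x ∈ A | f c x = r} →
        (ToType.mk.symm (i : l.ToType) : Ordinal.{u}) < c := fun i => hcof _ (ToType.mk.symm i.1).2
    choose F hF1 hF2 using hg
    have h3 : (⨆ i : s, F i) < t := by
      apply Ordinal.iSup_lt_of_lt_cof _ hF1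
      rw [hs2]
      exact hcon.trans_lt ht1
    obtain ⟨h4, h5⟩ := he _ h3
    obtain ⟨b, hb1, hb2⟩ := hs1 (ToType.mk ⟨_, h4⟩)
    have h6 : sInf (D (⨆ i : s, F i)) ≤ (ToType.mk.symm b : Ordinal.{u}) := by
      have := (ToType.mk (o := l)).symm.monotone hb2
      rw [OrderIso.symm_apply_apply] at this
      exact this
    have h7 := hF2 ⟨b, hb1⟩ _ (he _ (hF1 ⟨b, hb1⟩)).1 (he _ (hF1 ⟨b, hb1⟩)).2
    have h8 : F ⟨b, hb1⟩ ≤ ⨆ i : s, F i := Ordinal.le_iSup F _
    have h9 : sInf (D (F ⟨b, hb1⟩)) ≤ sInf (D (⨆ i : s, F i)) := by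
      rcases h8.lt_or_eq with h | h
      · exact (hmono _ _ h h3).le
      · rw [h]
    exact absurd (h7.trans_le (h9.trans h6)) (lt_irrefl _)
  intro r hr
  have h3 : sSup (D r) < l := by
    apply Ordinal.sSup_lt_of_lt_cof _ fun i hi => hi.1
    rw [← Ordinal.lift_cof]
    refine (Cardinal.le_aleph0_iff_set_countable.2 (hDc r)).trans_lt ?_
    rw [Cardinal.aleph0_lt_lift]
    exact h2
  have h4 : (sSup (D r)).card < l.card := by
    rw [← Cardinal.lt_ord, ← hl2]
    exact h3
  refine ⟨(Order.succ (sSup (D r)).card).ord, ?_, ?_, ?_⟩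
  · conv_rhs => rw [hl2]
    rw [Cardinal.ord_lt_ord]
    exact h1 _ h4
  · unfold IsCard
    rw [Cardinal.card_ord]
  · intro c hc1 hc2
    have h5 : c ≤ sSup (D r) := le_csSup ⟨l, fun a ha => ha.1.le⟩ ⟨hc1, hc2⟩
    refine h5.trans_lt ?_
    rw [Cardinal.lt_ord]
    exact Order.lt_succ _

end Pool.Agent.Helper65.GS
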