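import Pool.Agent.Helper65.GS.St

/-!
# Saturated filters: the main theorem from the modules
-/

set_option autoImplicit false

open Cardinal Ordinal Set Filter

universe u

namespace Pool.Agent.Helper65.GS

theorem main (hk : StCARD.{u}) (hs : StSMALL.{u}) (hj : StJUMP.{u}) (hch : StCHAIN.{u}) :
    StMAIN.{u} := by
  intro X κ W A t l f hS htl hl
  have hct : IsCard t := hk κ W A t l f hS htl hl
  have hκt : κ.ord ≤ t := hs κ W A t l f hS htl
  have hκc : κ ≤ t.card := Cardinal.ord_le.1 hκt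
  have hinf : ℵ₀ ≤ t.card := hS.unc.le.trans hκc
  have hlim : Order.IsSuccLimit t := by
    have h1 := Cardinal.isSuccLimit_ord hinf
    unfold IsCard at hct
    rwa [hct] at h1
  have hcof : ℵ₀ ≤ t.cof := Ordinal.aleph0_le_cof.2 hlim
  by_cases h1 : t.cof = κ
  · exact Or.inl ⟨hct, h1⟩
  · right
    rcases hcof.lt_or_eq with h2 | h2
    · obtain ⟨n, l', hn, hnc, hnl, hl', hrep⟩ := hch κ W A t l f hS htl hl h2 h1
      refine ⟨n, hn.le, hnc, ?_, l', hnl, hl', f, hrep⟩
      have hne : n.cof ≠ κ := by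
        rw [hnc]
        exact hS.unc.ne
      exact hj κ W A n l' f ⟨hS.reg, hS.unc, hS.card, hS.compl, hS.sat, hS.pos, hrep⟩ hnl hl' hne
    · exact ⟨t, le_rfl, h2.symm, hj κ W A t l f hS htl hl h1, l, htl, hl, f, hS.rep⟩

end Pool.Agent.Helper65.GS
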