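import Pool.Agent.Helper65.GS.St

set_option autoImplicit false

open Cardinal Ordinal Set Filter

universe u

namespace Pool.Agent.Helper65.GS

theorem small : StSMALL.{u} := by
  intro X κ W A t l f hS htl
  by_contra hlt
  rw [not_le] at hlt
  have hκ0 : ℵ₀ ≤ κ := hS.unc.le
  have hsucc : Order.succ t < κ.ord := (Cardinal.isSuccLimit_ord hκ0).succ_lt hlt
  have hcard : #(Order.succ t).ToType < κ := by
    rw [mk_toType]
    exact Cardinal.lt_ord.1 hsucc
  haveI := hS.compl
  have h1 : ∀ᶠ x in W, ∀ (i j : (Order.succ t).ToType),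
      (i.toOrd : Ordinal.{u}) < j.toOrd → x ∈ A → f i.toOrd x < f j.toOrd x := by
    refine (eventually_cardinal_forall hcard).2 fun i =>
      (eventually_cardinal_forall hcard).2 fun j => ?_
    by_cases hij : (i.toOrd : Ordinal.{u}) < j.toOrd
    · have hj : (j.toOrd : Ordinal.{u}) < l :=
        lt_of_le_of_lt (Order.lt_succ_iff.1 j.toOrd.2) htl
      exact (hS.rep.inc _ _ hij hj).mono fun x hx _ hxA => hx hxA
    · exact Eventually.of_forall fun x h => absurd h hij
  have h2 : ∀ᶠ x in W, x ∈ A → f t x < t := hS.rep.bd t htl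
  have h3 : ∀ᶠ x in W, x ∈ A → (∀ (i j : (Order.succ t).ToType),
      (i.toOrd : Ordinal.{u}) < j.toOrd → f i.toOrd x < f j.toOrd x) ∧ f t x < t := by
    filter_upwards [h1, h2] with x hx hx2 hxA
    exact ⟨fun i j hij => hx i j hij hxA, hx2 hxA⟩
  obtain ⟨x, hxA, hx1, hx2⟩ := (hS.pos.ae h3).nonempty
  have hmono : ∀ a b : Ordinal.{u}, a < b → b ≤ t → f a x < f b x := by
    intro a b hab hb
    have ha' : a ∈ Iio (Order.succ t) := Order.lt_succ_iff.2 (hab.le.trans hb)
    have hb' : b ∈ Iio (Order.succ t) := Order.lt_succ_iff.2 hb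
    have := hx1 (ToType.mk ⟨a, ha'⟩) (ToType.mk ⟨b, hb'⟩)
    simp only [ToType.toOrd, OrderIso.symm_apply_apply] at this
    exact this hab
  have hle : ∀ a : Ordinal.{u}, a ≤ t → a ≤ f a x := by
    intro a
    induction a using WellFoundedLT.induction with
    | _ a ih =>
      intro ha
      by_contra hc
      rw [not_le] at hc
      have h4 := ih (f a x) hc (hc.le.trans ha)
      exact absurd (hmono _ _ hc ha) (not_lt.2 h4)
  exact absurd hx2 (not_lt.2 (hle t le_rfl))

end Pool.Agent.Helper65.GS
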