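import Pool.Agent.Helper65.GS.Bas

/-!
# Saturated filters: the statements of the modules
-/

set_option autoImplicit false

open Cardinal Ordinal Set Filter

universe u

namespace Pool.Agent.Helper65.GS

/-- the common setting: `X` has the regular uncountable cardinality `κ`, the filter `W` is
`κ`-complete and saturated, and `f` represents below the
positive set `A` the value `l` of the ordinal `t` -/
structure Setup {X : Type u} (κ : Cardinal.{u}) (W : Filter X) (A : Set X) (t l : Ordinal.{u})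
    (f : Ordinal.{u} → X → Ordinal.{u}) : Prop where
  reg : κ.IsRegular
  unc : ℵ₀ < κ
  card : #X = κ
  compl : CardinalInterFilter W κ
  sat : Saturated W
  pos : Pos W A
  rep : Rep W A t l f

/-- values of ordinals below `κ` are not larger -/
def StSMALL : Prop := ∀ {X : Type u} (κ : Cardinal.{u}) (W : Filter X) (A : Set X)
    (t l : Ordinal.{u}) (f : Ordinal.{u} → X → Ordinal.{u}), Setup κ W A t l f →
    t < l → κ.ord ≤ t

/-- comparison of cardinalities through an injection -/
def StCMP : Prop := ∀ {X : Type u} (κ : Cardinal.{u}) (W : Filter X) (A : Set X)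
    (t l : Ordinal.{u}) (f : Ordinal.{u} → X → Ordinal.{u}), Setup κ W A t l f →
    ∀ B ⊆ A, Pos W B → ∀ (r r' s v : Ordinal.{u}) (h : Ordinal.{u} → Ordinal.{u}),
    r ≤ t → r' ≤ t → s ≤ l → InjOn h (Iio r) → MapsTo h (Iio r) (Iio r') →
    (∀ a < s, ∀ᶠ x in W, x ∈ B → f a x < r) →
    (∀ c < l, Pos W {x ∈ B | f c x < r'} → c < v) →
    s.card ≤ max v.card ℵ₀

/-- a function into an ordinal of cofinality different from `κ` is bounded on a positive set -/
def StBD : Prop := ∀ {X : Type u} (κ : Cardinal.{u}) (W : Filter X) (B : Set X),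
    κ.IsRegular → #X = κ → CardinalInterFilter W κ → Pos W B →
    ∀ (r : Ordinal.{u}) (g : X → Ordinal.{u}), Order.IsSuccLimit r → r.cof ≠ κ →
    (∀ᶠ x in W, x ∈ B → g x < r) → ∃ r' < r, Pos W {x ∈ B | g x < r'}

/-- a function into an ordinal of uncountable cofinality different from `κ` is bounded almost
everywhere -/
def StBDAE : Prop := ∀ {X : Type u} (κ : Cardinal.{u}) (W : Filter X) (B : Set X),
    κ.IsRegular → #X = κ → CardinalInterFilter W κ → Saturated W → ℵ₀ < κ →
    ∀ (r : Ordinal.{u}) (g : X → Ordinal.{u}), ℵ₀ < r.cof → r.cof ≠ κ →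
    (∀ᶠ x in W, x ∈ B → g x < r) → ∃ r' < r, ∀ᶠ x in W, x ∈ B → g x < r'

/-- if the value of `t` is a larger cardinal then `t` is a cardinal -/
def StCARD : Prop := ∀ {X : Type u} (κ : Cardinal.{u}) (W : Filter X) (A : Set X)
    (t l : Ordinal.{u}) (f : Ordinal.{u} → X → Ordinal.{u}), Setup κ W A t l f →
    t < l → IsCard l → IsCard t

/-- the values of the ordinals of an interval `[r₀, r]`, without cardinals of cofinality `κ`
above `r₀`, have cardinality at most `χ` if this is so for `r₀` -/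
def StGROW : Prop := ∀ {X : Type u} (κ : Cardinal.{u}) (W : Filter X) (A : Set X)
    (t l : Ordinal.{u}) (f : Ordinal.{u} → X → Ordinal.{u}), Setup κ W A t l f →
    ∀ B ⊆ A, Pos W B → ∀ (r₀ : Ordinal.{u}) (χ : Cardinal.{u}), κ.ord ≤ r₀ → r₀ < t →
    t.card ≤ χ → ℵ₀ ≤ χ →
    (∀ m, r₀ < m → m < t → IsCard m → m.cof ≠ κ) →
    (∀ a < l, Pos W {x ∈ B | f a x = r₀} → a.card ≤ χ) →
    ∀ r, r₀ ≤ r → r < t → ∀ a < l, Pos W {x ∈ B | f a x = r} → a.card ≤ χ

/-- if the cofinality of `t` is not `κ` and the value of `t` is a larger cardinal then the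
cardinals of cofinality `κ` are unbounded in `t` -/
def StJUMP : Prop := ∀ {X : Type u} (κ : Cardinal.{u}) (W : Filter X) (A : Set X)
    (t l : Ordinal.{u}) (f : Ordinal.{u} → X → Ordinal.{u}), Setup κ W A t l f →
    t < l → IsCard l → t.cof ≠ κ → ∀ r < t, ∃ m, r < m ∧ m < t ∧ IsCard m ∧ m.cof = κ

/-- for uncountable cofinality different from `κ`: every ordinal below `l` lies below all values
of some `r < t` -/
def StCOF : Prop := ∀ {X : Type u} (κ : Cardinal.{u}) (W : Filter X) (A : Set X)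
    (t l : Ordinal.{u}) (f : Ordinal.{u} → X → Ordinal.{u}), Setup κ W A t l f →
    ℵ₀ < t.cof → t.cof ≠ κ → ∀ a < l, ∃ r < t, ∀ c < l, Pos W {x ∈ A | f c x = r} → a < c

/-- for uncountable cofinality different from `κ`: the values of each `r < t` lie below a
cardinal less than `l` -/
def StLIM : Prop := ∀ {X : Type u} (κ : Cardinal.{u}) (W : Filter X) (A : Set X)
    (t l : Ordinal.{u}) (f : Ordinal.{u} → X → Ordinal.{u}), Setup κ W A t l f →
    t < l → IsCard l → ℵ₀ < t.cof → t.cof ≠ κ →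
    ∀ r < t, ∃ m < l, IsCard m ∧ ∀ c < l, Pos W {x ∈ A | f c x = r} → c < m

/-- for uncountable cofinality different from `κ`: there is a smaller ordinal of countable
cofinality with the same property -/
def StCHAIN : Prop := ∀ {X : Type u} (κ : Cardinal.{u}) (W : Filter X) (A : Set X)
    (t l : Ordinal.{u}) (f : Ordinal.{u} → X → Ordinal.{u}), Setup κ W A t l f →
    t < l → IsCard l → ℵ₀ < t.cof → t.cof ≠ κ →
    ∃ n l', n < t ∧ n.cof = ℵ₀ ∧ n < l' ∧ IsCard l' ∧ Rep W A n l' f

/-- the main theorem -/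
def StMAIN : Prop := ∀ {X : Type u} (κ : Cardinal.{u}) (W : Filter X) (A : Set X)
    (t l : Ordinal.{u}) (f : Ordinal.{u} → X → Ordinal.{u}), Setup κ W A t l f →
    t < l → IsCard l → (IsCard t ∧ t.cof = κ) ∨
      ∃ n ≤ t, n.cof = ℵ₀ ∧ (∀ r < n, ∃ m, r < m ∧ m < n ∧ IsCard m ∧ m.cof = κ) ∧
        ∃ l', n < l' ∧ IsCard l' ∧ Forces W A n l'

end Pool.Agent.Helper65.GS
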